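import Mathlib

/-! A local exchange argument: a point set covered by `k` lines, each with at most `2 K` points,
splits into `K` parts in general position once `K ≥ 30 k ^ 3`. -/

namespace Pool.Agent.H.MP_4c1c99_co
open Finset Classical

structure Cfg (α : Type) (k K : ℕ) where
  S : Finset α
  L : Fin k → Set α
  F : Finset α
  T : α → α → α → Prop
  cov : ∀ x ∈ S, ∃ i, x ∈ L i
  hF : F.card ≤ k ^ 2
  mov : ∀ x ∈ S, x ∉ F → ∀ i j, x ∈ L i → x ∈ L j → L i = L j
  hK : ∀ i, (S.filter (· ∈ L i)).card ≤ 2 * K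
  s1 : ∀ {x u v}, T x u v → T u x v
  s2 : ∀ {x u v}, T x u v → T x v u
  mem : ∀ {x u v}, T x u v → x ∈ S ∧ x ≠ u
  uniq : ∀ {x y u v i}, T x u v → T y u v → x ∈ L i → y ∈ L i → x = y

variable {α : Type} {k K : ℕ} (c : Cfg α k K)

def V1 (A : Finset α) (f : α → ℕ) : Prop := ∀ i, ∀ x ∈ A, ∀ y ∈ A, ∀ z ∈ A, x ∈ c.L i →
  y ∈ c.L i → z ∈ c.L i → x ≠ y → x ≠ z → y ≠ z → f x = f y → f x = f z → False

def Valid (f : α → ℕ) : Prop := (∀ x, f x < K) ∧ V1 c c.S f ∧ Set.InjOn f c.F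

lemma two {A : Finset α} {f : α → ℕ} (h : V1 c A f) (i : Fin k) (t : ℕ) :
    (A.filter fun x => x ∈ c.L i ∧ f x = t).card ≤ 2 := by
  by_contra hh
  obtain ⟨x, y, z, hx, hy, hz, h1, h2, h3⟩ := two_lt_card_iff.mp (not_le.mp hh)
  rw [mem_filter] at hx hy hz
  exact h i x hx.1 y hy.1 z hz.1 hx.2.1 hy.2.1 hz.2.1 h1 h2 h3 (hx.2.2.trans hy.2.2.symm)
    (hx.2.2.trans hz.2.2.symm)

lemma free (E : Finset ℕ) (h : E.card < K) : ∃ t < K, t ∉ E := by
  obtain ⟨t, h1, h2⟩ := exists_mem_notMem_of_card_lt_card (s := E) (t := range K) (by simpa)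
  exact ⟨t, mem_range.mp h1, h2⟩

lemma exists_valid (hk : k ^ 2 < K) : ∃ f, Valid c f := by
  have main : ∀ A : Finset α, A ⊆ c.S \ c.F → ∃ f : α → ℕ, (∀ x, f x < K) ∧
      V1 c (A ∪ (c.S ∩ c.F)) f ∧ Set.InjOn f c.F := by
    intro A
    induction A using Finset.induction_on with
    | empty =>
      intro _
      let e := c.F.equivFin
      have inj : Set.InjOn (fun x => if h : x ∈ c.F then (e ⟨x, h⟩).1 else 0) c.F := by
        intro x hx y hy h
        simp only [mem_coe.mp hx, mem_coe.mp hy, dif_pos] at h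
        exact congrArg Subtype.val (e.injective (Fin.ext h))
      refine ⟨_, fun x => ?_, fun i x hx y hy _ _ _ _ _ h _ _ h' _ => h (inj ?_ ?_ h'), inj⟩
      · have := c.hF
        split_ifs with h
        · have := (e ⟨x, h⟩).2
          omega
        · omega
      · simp only [empty_union, mem_inter] at hx; exact hx.2
      · simp only [empty_union, mem_inter] at hy; exact hy.2
    | insert a A ha ih =>
      intro hs
      obtain ⟨f, f1, f2, f3⟩ := ih ((subset_insert _ _).trans hs)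
      obtain ⟨a1, a2⟩ := mem_sdiff.mp (hs (mem_insert_self _ _))
      obtain ⟨i, hi⟩ := c.cov a a1
      set B := (A ∪ (c.S ∩ c.F)).filter (· ∈ c.L i)
      have na : a ∉ A ∪ (c.S ∩ c.F) := by simp [ha, a2]
      have hB : B.card < 2 * K := by
        refine lt_of_lt_of_le (card_lt_card ⟨fun x hx => ?_, fun h => ?_⟩) (c.hK i)
        · obtain ⟨h1, h2⟩ := mem_filter.mp hx
          refine mem_filter.mpr ⟨?_, h2⟩
          rcases mem_union.mp h1 with h | h
          · exact (mem_sdiff.mp (hs (mem_insert_of_mem h))).1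
          · exact (mem_inter.mp h).1
        · exact na (mem_filter.mp (h (mem_filter.mpr ⟨a1, hi⟩))).1
      obtain ⟨t, t1, t2⟩ := exists_card_fiber_lt_of_card_lt_mul (s := B) (t := range K) (f := f)
        (n := 2) (by rw [card_range]; omega)
      have k1 : ∀ j, a ∈ c.L j → ∀ y ∈ A ∪ (c.S ∩ c.F), ∀ z ∈ A ∪ (c.S ∩ c.F), y ∈ c.L j →
          z ∈ c.L j → y ≠ z → f y = t → f z = t → False := fun j hj y hy z hz h1 h2 h3 h4 h5 => by
        rw [c.mov a a1 a2 j i hj hi] at h1 h2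
        have : 1 < (B.filter fun x => f x = t).card := one_lt_card.mpr
          ⟨y, mem_filter.mpr ⟨mem_filter.mpr ⟨hy, h1⟩, h4⟩, z,
            mem_filter.mpr ⟨mem_filter.mpr ⟨hz, h2⟩, h5⟩, h3⟩
        omega
      refine ⟨Function.update f a t, fun x => ?_, ?_, fun x hx y hy h => ?_⟩
      · by_cases h : x = a
        · simpa [h] using t1
        · simpa [h] using f1 x
      · intro j x hx y hy z hz l1 l2 l3 n1 n2 n3 e1 e2
        rw [insert_union, mem_insert] at hx hy hz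
        by_cases xa : x = a
        · subst xa
          rw [Function.update_self, Function.update_of_ne n1.symm] at e1
          rw [Function.update_self, Function.update_of_ne n2.symm] at e2
          exact k1 j l1 y (hy.resolve_left n1.symm) z (hz.resolve_left n2.symm) l2 l3 n3 e1.symm
            e2.symm
        by_cases ya : y = a
        · subst ya
          rw [Function.update_self, Function.update_of_ne n1] at e1
          rw [Function.update_of_ne n1, Function.update_of_ne n3.symm] at e2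
          exact k1 j l2 x (hx.resolve_left n1) z (hz.resolve_left n3.symm) l1 l3 n2 e1
            (e2.symm.trans e1)
        by_cases za : z = a
        · subst za
          rw [Function.update_of_ne n2, Function.update_of_ne n3] at e1
          rw [Function.update_self, Function.update_of_ne n2] at e2
          exact k1 j l3 x (hx.resolve_left n2) y (hy.resolve_left n3) l1 l2 n1 e2
            (e1.symm.trans e2)
        rw [Function.update_of_ne xa, Function.update_of_ne ya] at e1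
        rw [Function.update_of_ne xa, Function.update_of_ne za] at e2
        exact f2 j x (hx.resolve_left xa) y (hy.resolve_left ya) z (hz.resolve_left za) l1 l2 l3
          n1 n2 n3 e1 e2
      · rw [Function.update_of_ne (ne_of_mem_of_not_mem hx a2),
          Function.update_of_ne (ne_of_mem_of_not_mem hy a2)] at h
        exact f3 hx hy h
  obtain ⟨f, f1, f2, f3⟩ := main _ subset_rfl
  rw [sdiff_union_inter] at f2
  exact ⟨f, f1, f2, f3⟩

/-- recolour `x` with `t`, exchanging colours with a point `y` of its line when there is one -/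
lemma move {f : α → ℕ} (hf : Valid c f) {x : α} (x1 : x ∈ c.S) (x2 : x ∉ c.F) {i : Fin k}
    (x3 : x ∈ c.L i) (E : Finset ℕ) (Y : Finset α) (h : E.card + Y.card + k ^ 2 + 1 < K) :
    ∃ g t y, Valid c g ∧ t ∉ E ∧ t ≠ f x ∧ g x = t ∧ (∀ z, z ≠ x → z ≠ y → g z = f z) ∧
      (y = x ∨ y ∈ c.L i ∧ y ∉ Y ∧ f y = t ∧ g y = f x) := by
  obtain ⟨t, t1, t2⟩ := free (K := K) (insert (f x) (E ∪ (Y.image f ∪ c.F.image f))) (by
    have h1 := card_insert_le (f x) (E ∪ (Y.image f ∪ c.F.image f))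
    have h2 := card_union_le E (Y.image f ∪ c.F.image f)
    have h3 := card_union_le (Y.image f) (c.F.image f)
    have h4 : (Y.image f).card ≤ _ := card_image_le
    have h5 : (c.F.image f).card ≤ _ := card_image_le
    have := c.hF
    omega)
  simp only [mem_insert, mem_union, mem_image, not_or, not_exists, not_and] at t2
  obtain ⟨t2, t3, t4, t5⟩ := t2
  by_cases hy : ∃ y ∈ c.S, y ∈ c.L i ∧ f y = t
  · obtain ⟨y, y1, y2, y3⟩ := hy
    have yF : y ∉ c.F := fun h => t5 y h y3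
    have sw : ∀ z ∈ c.S, ∀ j, z ∈ c.L j → Equiv.swap x y z ∈ c.S ∧ Equiv.swap x y z ∈ c.L j := by
      intro z z1 j z2
      rw [Equiv.swap_apply_def]
      split_ifs with h1 h2
      · subst h1; exact ⟨y1, c.mov z x1 x2 i j x3 z2 ▸ y2⟩
      · subst h2; exact ⟨x1, c.mov z y1 yF i j y2 z2 ▸ x3⟩
      · exact ⟨z1, z2⟩
    refine ⟨f ∘ Equiv.swap x y, t, y, ⟨fun z => hf.1 _, ?_, fun u hu v hv h => ?_⟩, t3, t2,
      by simp [y3], fun z h1 h2 => by simp [Equiv.swap_apply_of_ne_of_ne h1 h2],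
      Or.inr ⟨y2, fun h => t4 y h y3, y3, by simp⟩⟩
    · intro j u hu v hv w hw l1 l2 l3 n1 n2 n3
      exact hf.2.1 j _ (sw u hu j l1).1 _ (sw v hv j l2).1 _ (sw w hw j l3).1 (sw u hu j l1).2
        (sw v hv j l2).2 (sw w hw j l3).2 ((Equiv.injective _).ne n1) ((Equiv.injective _).ne n2)
        ((Equiv.injective _).ne n3)
    · simp only [Function.comp, Equiv.swap_apply_of_ne_of_ne (ne_of_mem_of_not_mem hu x2)
        (ne_of_mem_of_not_mem hu yF), Equiv.swap_apply_of_ne_of_ne (ne_of_mem_of_not_mem hv x2)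
        (ne_of_mem_of_not_mem hv yF)] at h
      exact hf.2.2 hu hv h
  · have k1 : ∀ j, x ∈ c.L j → ∀ y ∈ c.S, y ∈ c.L j → y ≠ x → Function.update f x t y ≠ t :=
      fun j hj y y1 y2 y3 e => hy ⟨y, y1, c.mov x x1 x2 j i hj x3 ▸ y2,
        by rwa [Function.update_of_ne y3] at e⟩
    refine ⟨Function.update f x t, t, x, ⟨fun z => ?_, ?_, fun u hu v hv h => ?_⟩, t3, t2,
      by simp, fun z h1 _ => by simp [h1], Or.inl rfl⟩
    · by_cases h : z = x
      · simpa [h] using t1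
      · simpa [h] using hf.1 z
    · intro j u hu v hv w hw l1 l2 l3 n1 n2 n3 e1 e2
      by_cases ux : u = x
      · subst ux; exact k1 j l1 v hv l2 n1.symm (by simpa using e1.symm)
      by_cases vx : v = x
      · subst vx; exact k1 j l2 u hu l1 n1 (by simpa using e1)
      by_cases wx : w = x
      · subst wx; exact k1 j l3 u hu l1 n2 (by simpa using e2)
      rw [Function.update_of_ne ux, Function.update_of_ne vx] at e1
      rw [Function.update_of_ne ux, Function.update_of_ne wx] at e2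
      exact hf.2.1 j u hu v hv w hw l1 l2 l3 n1 n2 n3 e1 e2
    · rw [Function.update_of_ne (ne_of_mem_of_not_mem hu x2),
        Function.update_of_ne (ne_of_mem_of_not_mem hv x2)] at h
      exact hf.2.2 hu hv h

lemma cover_card (A : Finset α) (hA : A ⊆ c.S) (n : ℕ)
    (h : ∀ i, (A.filter (· ∈ c.L i)).card ≤ n) : A.card ≤ k * n := by
  have s : A ⊆ univ.biUnion fun i => A.filter (· ∈ c.L i) := fun x hx => by
    obtain ⟨i, hi⟩ := c.cov x (hA hx)
    exact mem_biUnion.mpr ⟨i, mem_univ _, mem_filter.mpr ⟨hx, hi⟩⟩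
  simpa using (card_le_card s).trans (card_biUnion_le_card_mul _ _ n fun i _ => h i)

noncomputable def cls (f : α → ℕ) (t : ℕ) : Finset α := c.S.filter fun x => f x = t

lemma cls_card {f : α → ℕ} (hf : Valid c f) (t : ℕ) : (cls c f t).card ≤ k * 2 :=
  cover_card c _ (filter_subset _ _) 2 fun i => by
    refine le_trans (le_of_eq ?_) (two c hf.2.1 i t)
    rw [filter_filter]
    simp only [and_comm]

def Blk (f : α → ℕ) (x : α) (t : ℕ) : Prop := ∃ u v, c.T x u v ∧ f u = t ∧ f v = t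

lemma on_line {β : Type} (W : Finset β) (p q : β → α) (i : Fin k) :
    (c.S.filter fun x => x ∈ c.L i ∧ ∃ w ∈ W, c.T x (p w) (q w)).card ≤ W.card := by
  have s : (c.S.filter fun x => x ∈ c.L i ∧ ∃ w ∈ W, c.T x (p w) (q w)) ⊆
      W.biUnion fun w => c.S.filter fun x => x ∈ c.L i ∧ c.T x (p w) (q w) := fun x hx => by
    obtain ⟨h1, h2, w, h3, h4⟩ := mem_filter.mp hx
    exact mem_biUnion.mpr ⟨w, h3, mem_filter.mpr ⟨h1, h2, h4⟩⟩
  simpa using (card_le_card s).trans (card_biUnion_le_card_mul _ _ 1 fun w _ =>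
    card_le_one.mpr fun x hx y hy => c.uniq (mem_filter.mp hx).2.2 (mem_filter.mp hy).2.2
      (mem_filter.mp hx).2.1 (mem_filter.mp hy).2.1)

lemma blk_line {f : α → ℕ} (hf : Valid c f) (t : ℕ) (i : Fin k) :
    (c.S.filter fun x => x ∈ c.L i ∧ Blk c f x t).card ≤ 4 * k ^ 2 := by
  have h1 := on_line c (cls c f t ×ˢ cls c f t) Prod.fst Prod.snd i
  have h2 := cls_card c hf t
  rw [card_product] at h1
  refine le_trans (card_le_card fun x hx => ?_) (h1.trans (by nlinarith))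
  obtain ⟨a1, a2, u, v, a3, a4, a5⟩ := mem_filter.mp hx
  exact mem_filter.mpr ⟨a1, a2, (u, v), mem_product.mpr ⟨mem_filter.mpr ⟨(c.mem (c.s1 a3)).1, a4⟩,
    mem_filter.mpr ⟨(c.mem (c.s1 (c.s2 a3))).1, a5⟩⟩, a3⟩

lemma heavy {f : α → ℕ} (hf : Valid c f) (hK : 0 < K) : (c.S.filter fun x =>
    K ≤ 2 * ((range K).filter (Blk c f x)).card).card ≤ 8 * k ^ 3 := by
  set H := c.S.filter fun x => K ≤ 2 * ((range K).filter (Blk c f x)).card
  have e : ∑ x ∈ H, ((range K).filter (Blk c f x)).card =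
      ∑ t ∈ range K, (H.filter (Blk c f · t)).card := by
    simp only [card_filter]
    exact sum_comm
  have h1 : ∑ t ∈ range K, (H.filter (Blk c f · t)).card ≤ (range K).card • (k * (4 * k ^ 2)) :=
    sum_le_card_nsmul _ _ _ fun t _ => cover_card c _
      ((filter_subset _ _).trans (filter_subset _ _)) _ fun i => by
        refine le_trans (card_le_card fun x hx => ?_) (blk_line c hf t i)
        simp only [H, mem_filter] at hx ⊢
        tauto
  have h2 : H.card • K ≤ ∑ x ∈ H, 2 * ((range K).filter (Blk c f x)).card :=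
    card_nsmul_le_sum _ _ _ fun x hx => (mem_filter.mp hx).2
  rw [← mul_sum, e] at h2
  rw [card_range] at h1
  simp only [smul_eq_mul] at h1 h2
  refine Nat.le_of_mul_le_mul_right ?_ hK
  nlinarith

noncomputable def bad (f : α → ℕ) : Finset (α × α × α) :=
  (c.S ×ˢ c.S ×ˢ c.S).filter fun e => c.T e.1 e.2.1 e.2.2 ∧ f e.1 = f e.2.1 ∧ f e.1 = f e.2.2

lemma bad_sub {f g : α → ℕ} {x y : α} {t : ℕ} (t1 : t ≠ f x) (g1 : g x = t)
    (g2 : ∀ z, z ≠ x → z ≠ y → g z = f z) (b1 : ¬ Blk c f x t)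
    (g3 : y = x ∨ ¬ Blk c f y (f x) ∧ g y = f x) :
    ∀ e ∈ bad c g, e ∈ bad c f ∧ e.1 ≠ x := by
  have k1 : ∀ {u v}, c.T x u v → g x = g u → g x = g v → False := fun {u v} h e1 e2 => by
    have n1 := (c.mem h).2.symm
    have n2 := (c.mem (c.s2 h)).2.symm
    have : ∀ z, z ≠ x → g x = g z → f z = t := fun z h1 h2 => by
      rw [← g2 z h1 ?_, ← h2, g1]
      rintro rfl
      rcases g3 with h | h
      · exact h1 h
      · exact t1 (g1.symm.trans (h2.trans h.2))
    exact b1 ⟨u, v, h, this u n1 e1, this v n2 e2⟩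
  have k2 : ∀ {u v}, c.T y u v → g y = g u → g y = g v → False := fun {u v} h e1 e2 => by
    rcases g3 with rfl | g3
    · exact k1 h e1 e2
    have n1 := (c.mem h).2.symm
    have n2 := (c.mem (c.s2 h)).2.symm
    have : ∀ z, z ≠ y → g y = g z → f z = f x := fun z h1 h2 => by
      rw [← g2 z ?_ h1, ← h2, g3.2]
      rintro rfl
      exact t1 (g1.symm.trans (h2.symm.trans g3.2))
    exact g3.1 ⟨u, v, h, this u n1 e1, this v n2 e2⟩
  rintro ⟨p, u, v⟩ he
  obtain ⟨h1, h2, h3, h4⟩ := mem_filter.mp he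
  dsimp only at h2 h3 h4
  have p1 : p ≠ x := by rintro rfl; exact k1 h2 h3 h4
  have p2 : p ≠ y := by rintro rfl; exact k2 h2 h3 h4
  have u1 : u ≠ x := by rintro rfl; exact k1 (c.s1 h2) h3.symm (h3.symm.trans h4)
  have u2 : u ≠ y := by rintro rfl; exact k2 (c.s1 h2) h3.symm (h3.symm.trans h4)
  have v1 : v ≠ x := by rintro rfl; exact k1 (c.s1 (c.s2 h2)) h4.symm (h4.symm.trans h3)
  have v2 : v ≠ y := by rintro rfl; exact k2 (c.s1 (c.s2 h2)) h4.symm (h4.symm.trans h3)
  rw [g2 p p1 p2] at h3 h4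
  rw [g2 u u1 u2] at h3
  rw [g2 v v1 v2] at h4
  exact ⟨mem_filter.mpr ⟨h1, h2, h3, h4⟩, p1⟩

lemma mem_bad {f : α → ℕ} {x u v : α} (h : c.T x u v) (e1 : f x = f u) (e2 : f x = f v) :
    (x, u, v) ∈ bad c f := mem_filter.mpr ⟨by
  simp [(c.mem h).1, (c.mem (c.s1 h)).1, (c.mem (c.s1 (c.s2 h))).1], h, e1, e2⟩

theorem key (k0 : 0 < k) (hk : 30 * k ^ 3 ≤ K) : ∃ f, Valid c f ∧
    ∀ x u v, c.T x u v → f x = f u → f x = f v → False := by
  have q1 : k ≤ k ^ 2 := Nat.le_self_pow (by norm_num) _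
  have q2 : k ^ 2 ≤ k ^ 3 := Nat.pow_le_pow_right k0 (by norm_num)
  obtain ⟨f0, v0, m0⟩ := (measure fun f => (bad c f).card).wf.has_min {f | Valid c f}
    (exists_valid c (by omega))
  refine ⟨f0, v0, fun x u v h e1 e2 => ?_⟩
  obtain ⟨a, u0, w0, hT, aF, e3, e4⟩ : ∃ a u v, c.T a u v ∧ a ∉ c.F ∧ f0 a = f0 u ∧
      f0 a = f0 v := by
    by_cases xF : x ∈ c.F
    · exact ⟨u, x, v, c.s1 h, fun uF => (c.mem h).2 (v0.2.2 xF uF e1), e1.symm, e1.symm.trans e2⟩
    · exact ⟨x, u, v, h, xF, e1, e2⟩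
  let N : (α → ℕ) → Finset (α × α) := fun f => (c.S ×ˢ c.S).filter fun e =>
    c.T a e.1 e.2 ∧ f e.1 = f e.2 ∧ f e.1 ≠ f0 a
  obtain ⟨f, ⟨vf, bf, cf⟩, mf⟩ := (measure fun f => (N f).card).wf.has_min
    {f | Valid c f ∧ (bad c f).card ≤ (bad c f0).card ∧ ∀ z, f z = f0 a ↔ f0 z = f0 a}
    ⟨f0, v0, le_rfl, fun _ => Iff.rfl⟩
  have fa : f a = f0 a := (cf a).mpr rfl
  have aS := (c.mem hT).1
  obtain ⟨i, hi⟩ := c.cov a aS
  set U := (N f).image Prod.fst
  by_cases hU : U.card + 5 * k ^ 2 + 1 < K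
  · obtain ⟨g, t, y, g0, t1, t2, g1, g2, g3⟩ := move c vf aS aF hi (U.image f)
      (c.S.filter fun x => x ∈ c.L i ∧ Blk c f x (f a)) (by
        have h1 : (U.image f).card ≤ _ := card_image_le
        have := blk_line c vf (f a) i
        omega)
    have sb := bad_sub c t2 g1 g2 (by
      rintro ⟨p, q, h1, h2, h3⟩
      exact t1 (mem_image.mpr ⟨p, mem_image.mpr ⟨(p, q), mem_filter.mpr ⟨by
        simp [(c.mem (c.s1 h1)).1, (c.mem (c.s1 (c.s2 h1))).1], h1, h2.trans h3.symm,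
          by rw [← fa]; exact h2 ▸ t2⟩, rfl⟩, h2⟩)) (g3.imp id fun ⟨h1, h2, _, h4⟩ =>
        ⟨fun hb => h2 (mem_filter.mpr ⟨by
          obtain ⟨_, _, hb, -⟩ := hb
          exact (c.mem hb).1, h1, hb⟩), h4⟩)
    refine m0 g g0 (lt_of_lt_of_le (card_lt_card ⟨fun e he => (sb e he).1, fun hs => ?_⟩) bf)
    exact (sb _ (hs (mem_bad c hT (fa.trans ((cf _).mpr e3.symm).symm)
      (fa.trans ((cf _).mpr e4.symm).symm)))).2 rfl
  obtain ⟨b, b1, b2⟩ := exists_mem_notMem_of_card_lt_card (t := U) (s := c.F ∪ c.S.filter fun x =>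
      K ≤ 2 * ((range K).filter (Blk c f x)).card) (by
    have := card_union_le c.F (c.S.filter fun x => K ≤ 2 * ((range K).filter (Blk c f x)).card)
    have := heavy c vf (by omega)
    have := c.hF
    omega)
  obtain ⟨⟨b, b'⟩, b3, rfl⟩ := mem_image.mp b1
  obtain ⟨-, b4, b5, b6⟩ := mem_filter.mp b3
  dsimp only at b2 b4 b5 b6
  have bS := (c.mem (c.s1 b4)).1
  simp only [mem_union, mem_filter, bS, true_and, not_or, not_le] at b2
  obtain ⟨j, hj⟩ := c.cov b bS
  let W := c.S.filter fun w => c.T w a b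
  have cW : W.card ≤ k * 1 := cover_card c _ (filter_subset _ _) 1 fun i =>
    card_le_one.mpr fun x hx y hy => c.uniq (mem_filter.mp (mem_filter.mp hx).1).2
      (mem_filter.mp (mem_filter.mp hy).1).2 (mem_filter.mp hx).2 (mem_filter.mp hy).2
  let Y1 := c.S.filter fun x => x ∈ c.L j ∧ Blk c f x (f b)
  let Y2 := c.S.filter fun x => x ∈ c.L j ∧ ∃ w ∈ cls c f (f b), c.T x a w
  obtain ⟨g, t, y, g0, t1, t2, g1, g2, g3⟩ := move c vf bS b2.1 hj
    (insert (f0 a) ((range K).filter (Blk c f b) ∪ W.image f)) (Y1 ∪ Y2) (by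
      have h1 := card_insert_le (f0 a) ((range K).filter (Blk c f b) ∪ W.image f)
      have h2 := card_union_le ((range K).filter (Blk c f b)) (W.image f)
      have h3 : (W.image f).card ≤ _ := card_image_le
      have h4 := card_union_le Y1 Y2
      have h5 : Y1.card ≤ _ := blk_line c vf (f b) j
      have h6 : Y2.card ≤ _ := (on_line c (cls c f (f b)) (fun _ => a) id j).trans
        (cls_card c vf _)
      have := b2.2
      omega)
  simp only [mem_insert, mem_union, mem_filter, mem_range, mem_image, not_or, not_and,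
    not_exists] at t1
  obtain ⟨t3, t4, t5⟩ := t1
  have sb := bad_sub c t2 g1 g2 (t4 (g1 ▸ g0.1 b)) (g3.imp id fun ⟨h1, h2, _, h4⟩ =>
    ⟨fun hb => h2 (mem_union_left _ (mem_filter.mpr ⟨by
      obtain ⟨_, _, hb, -⟩ := hb
      exact (c.mem hb).1, h1, hb⟩)), h4⟩)
  have k1 : ∀ {w}, c.T a b w → g b ≠ g w := fun {w} h e => by
    have n1 : w ≠ b := (c.mem (c.s2 (c.s1 h))).2.symm
    refine t5 w (mem_filter.mpr ⟨(c.mem (c.s1 (c.s2 h))).1, c.s1 (c.s2 h)⟩) ?_
    rw [← g2 w n1 ?_, ← e, g1]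
    rintro rfl
    rcases g3 with h' | h'
    · exact n1 h'
    · exact t2 (g1.symm.trans (e.trans h'.2.2.2))
  have k2 : ∀ {w}, c.T a y w → g y ≠ g w := fun {w} h e => by
    rcases g3 with rfl | g3
    · exact k1 h e
    have n1 : w ≠ y := (c.mem (c.s2 (c.s1 h))).2.symm
    refine g3.2.1 (mem_union_right _ (mem_filter.mpr ⟨(c.mem (c.s1 h)).1, g3.1, w,
      mem_filter.mpr ⟨(c.mem (c.s1 (c.s2 h))).1, ?_⟩, c.s1 h⟩))
    rw [← g2 w ?_ n1, ← e, g3.2.2.2]
    rintro rfl
    exact t2 (g1.symm.trans (e.symm.trans g3.2.2.2))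
  have sN : ∀ e ∈ N g, e ∈ N f ∧ e.1 ≠ b := by
    rintro ⟨p, q⟩ he
    obtain ⟨h1, h2, h3, h4⟩ := mem_filter.mp he
    dsimp only at h2 h3 h4
    have p1 : p ≠ b := by rintro rfl; exact k1 h2 h3
    have p2 : p ≠ y := by rintro rfl; exact k2 h2 h3
    have q1 : q ≠ b := by rintro rfl; exact k1 (c.s2 h2) h3.symm
    have q2 : q ≠ y := by rintro rfl; exact k2 (c.s2 h2) h3.symm
    rw [g2 p p1 p2] at h3 h4
    rw [g2 q q1 q2] at h3
    exact ⟨mem_filter.mpr ⟨h1, h2, h3, h4⟩, p1⟩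
  refine mf g ⟨g0, (card_le_card fun e he => (sb e he).1).trans bf, fun z => ?_⟩
    (card_lt_card ⟨fun e he => (sN e he).1, fun hs => (sN _ (hs b3)).2 rfl⟩)
  rw [← cf z]
  by_cases z1 : z = b
  · subst z1; rw [g1]; exact iff_of_false t3 b6
  by_cases z2 : z = y
  · subst z2
    obtain ⟨-, -, h3, h4⟩ := g3.resolve_left z1
    rw [h3, h4]; exact iff_of_false b6 t3
  rw [g2 z z1 z2]

end Pool.Agent.H.MP_4c1c99_co
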